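import Mathlib

/-!
# The class group of an extension (project KG, module BASE), Mathlib only
-/

set_option autoImplicit false

open NumberField nonZeroDivisors

namespace Pool.Agent.D0H58.KG

theorem base_core (K : Type) [Field K] [NumberField K] (L : Type) [Field L] [NumberField L]
    [Algebra K L] (m R : ℕ) (hcop : Nat.Coprime m (Module.finrank K L))
    (h : ∃ f : Multiplicative (Fin R → ZMod m) →* ClassGroup (𝓞 K), Function.Injective f) :
    ∃ f : Multiplicative (Fin R → ZMod m) →* ClassGroup (𝓞 L), Function.Injective f := by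
  obtain ⟨f, hf⟩ := h
  refine ⟨(ClassGroup.extendedHom (𝓞 K) (𝓞 L)).comp f, ?_⟩
  rw [injective_iff_map_eq_one]
  intro x hx
  rw [MonoidHom.comp_apply] at hx
  rw [injective_iff_map_eq_one] at hf
  apply hf
  have h1 : f x ^ m = 1 := by
    rw [← map_pow]
    have : x ^ m = 1 := by
      apply Multiplicative.toAdd.injective
      rw [toAdd_pow, toAdd_one]
      funext i
      simp
    rw [this, map_one]
  have h2 : f x ^ Module.finrank K L = 1 := by
    obtain ⟨I, hI⟩ := ClassGroup.mk0_surjective (f x)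
    rw [← hI, ClassGroup.extendedHom_mk0] at hx
    have h3 : (I.1.map (algebraMap (𝓞 K) (𝓞 L))).IsPrincipal :=
      (ClassGroup.mk0_eq_one_iff (ClassGroup.extendedIdeal (𝓞 K) (𝓞 L) I).2).mp hx
    obtain ⟨a, ha⟩ := h3
    have h4 := Ideal.relNorm_algebraMap (R := 𝓞 K) (𝓞 L) I.1
    have h5 : I.1.map (algebraMap (𝓞 K) (𝓞 L)) = Ideal.span {a} := ha
    rw [h5, Ideal.relNorm_singleton] at h4
    have h6 : Module.finrank (𝓞 K) (𝓞 L) = Module.finrank K L :=
      (IsFractionRing.finrank_eq (𝓞 K) K (𝓞 L) L).symm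
    rw [h6] at h4
    rw [← hI, ← map_pow]
    have h7 : (I ^ Module.finrank K L).1 = Ideal.span {Algebra.intNorm (𝓞 K) (𝓞 L) a} := by
      rw [h4]; rfl
    have h8 := (ClassGroup.mk0_eq_one_iff (I ^ Module.finrank K L).2).mpr
      (by rw [h7]; exact ⟨_, rfl⟩)
    exact h8
  have h9 : orderOf (f x) ∣ 1 := by
    rw [← hcop]
    exact Nat.dvd_gcd (orderOf_dvd_of_pow_eq_one h1) (orderOf_dvd_of_pow_eq_one h2)
  exact orderOf_eq_one_iff.mp (Nat.dvd_one.mp h9)

end Pool.Agent.D0H58.KG
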