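import Pool.Agent.D0H34.KG.Stm
import Pool.Agent.D0H58.KG.BaseCore

set_option autoImplicit false

namespace Pool.Agent.D0H58.KG

open Pool.Agent.D0H34.KG

theorem t_BASE : S_BASE := fun K _ _ L _ _ _ m R hcop h => base_core K L m R hcop h

end Pool.Agent.D0H58.KG
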